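import Pool.Agent.N874.PP.Def

/-!
# PP-BOX (for helper874, project PP): boxes of tuples of polynomials with congruence conditions

By helper160.
-/

set_option autoImplicit false
set_option linter.all false

open Polynomial
open scoped Classical

namespace Pool.Agent.N160.PP

open Pool.Agent.N874.PP

/-! ### Maps of tuples -/

/-- The image of a tuple under a ring homomorphism. -/
noncomputable def tmap {R R' : Type} [CommRing R] [CommRing R'] (φ : R →+* R') (B : Tup R) : Tup R' :=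
  ⟨φ B.x, φ B.y, φ B.c, φ B.z, φ B.w⟩

section tmap

variable {R R' : Type} [CommRing R] [CommRing R'] (φ : R →+* R') (B : Tup R)

lemma chA_tmap : chA (tmap φ B) = φ (chA B) := by
  have h2 : φ 2 = 2 := map_ofNat φ 2
  have h3 : φ 3 = 3 := map_ofNat φ 3
  simp [chA, tmap, h2, h3]

lemma chB_tmap : chB (tmap φ B) = φ (chB B) := by
  have h2 : φ 2 = 2 := map_ofNat φ 2
  simp [chB, tmap, h2]

lemma gq_tmap (u : R) : gq (tmap φ B) (φ u) = φ (gq B u) := by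
  have h4 : φ 4 = 4 := map_ofNat φ 4
  have h8 : φ 8 = 8 := map_ofNat φ 8
  have h12 : φ 12 = 12 := map_ofNat φ 12
  simp [gq, tmap, h4, h8, h12]

end tmap

/-- tuples as products -/
def tupEquiv (R : Type) : Tup R ≃ R × R × R × R × R where
  toFun B := (B.x, B.y, B.c, B.z, B.w)
  invFun p := ⟨p.1, p.2.1, p.2.2.1, p.2.2.2.1, p.2.2.2.2⟩
  left_inv _ := rfl
  right_inv _ := rfl

instance {R : Type} [Finite R] : Finite (Tup R) := Finite.of_equiv _ (tupEquiv R).symm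

/-! ### Polynomials of bounded degree -/

section deg

variable {k : Type} [Field k] [Finite k]

instance (n : ℕ) : Finite (degreeLT k n) := Finite.of_equiv _ (degreeLTEquiv k n).toEquiv.symm

lemma card_degreeLT (n : ℕ) : Nat.card (degreeLT k n) = Nat.card k ^ n := by
  rw [Nat.card_congr (degreeLTEquiv k n).toEquiv, Nat.card_fun, Nat.card_fin]

lemma mem_degreeLT' {f : k[X]} {n : ℕ} (h : f.natDegree < n) : f ∈ degreeLT k n := by
  rw [mem_degreeLT]
  exact (degree_le_natDegree).trans_lt (by exact_mod_cast h)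

end deg

/-! ### The trivial bound -/

theorem box0 : S_BOX0 := by
  intro k _ _ S s N m hm
  set T := degreeLT k (2 * N - 2 * m + 1) × degreeLT k (2 * N - m + 1) × degreeLT k (2 * N + 1) ×
    degreeLT k (2 * N + m + 1) × degreeLT k (2 * N + 2 * m + 1) with hT
  have key : ∀ B : {B : Tup k[X] | Xset N m S s B},
      (B.1.x ∈ degreeLT k (2 * N - 2 * m + 1)) ∧ (B.1.y ∈ degreeLT k (2 * N - m + 1)) ∧
      (B.1.c ∈ degreeLT k (2 * N + 1)) ∧ (B.1.z ∈ degreeLT k (2 * N + m + 1)) ∧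
      (B.1.w ∈ degreeLT k (2 * N + 2 * m + 1)) := by
    intro B
    obtain ⟨h1, h2, h3, h4, h5⟩ := B.2.box
    exact ⟨mem_degreeLT' (by omega), mem_degreeLT' (by omega), mem_degreeLT' (by omega),
      mem_degreeLT' (by omega), mem_degreeLT' (by omega)⟩
  let Φ : {B : Tup k[X] | Xset N m S s B} → T := fun B =>
    (⟨B.1.x, (key B).1⟩, ⟨B.1.y, (key B).2.1⟩, ⟨B.1.c, (key B).2.2.1⟩, ⟨B.1.z, (key B).2.2.2.1⟩,
      ⟨B.1.w, (key B).2.2.2.2⟩)
  have hΦ : Function.Injective Φ := by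
    rintro ⟨B, hB⟩ ⟨B', hB'⟩ h
    have h1 : B.x = B'.x := congrArg (fun t : T => (t.1 : k[X])) h
    have h2 : B.y = B'.y := congrArg (fun t : T => (t.2.1 : k[X])) h
    have h3 : B.c = B'.c := congrArg (fun t : T => (t.2.2.1 : k[X])) h
    have h4 : B.z = B'.z := congrArg (fun t : T => (t.2.2.2.1 : k[X])) h
    have h5 : B.w = B'.w := congrArg (fun t : T => (t.2.2.2.2 : k[X])) h
    exact Subtype.ext (Tup.ext h1 h2 h3 h4 h5)
  have hfin : Finite {B : Tup k[X] | Xset N m S s B} := Finite.of_injective Φ hΦ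
  refine ⟨Set.toFinite _, ?_⟩
  have h1 := Nat.card_le_card_of_injective Φ hΦ
  rw [Nat.card_coe_set_eq] at h1
  refine h1.trans (le_of_eq ?_)
  rw [hT, Nat.card_prod, Nat.card_prod, Nat.card_prod, Nat.card_prod, card_degreeLT, card_degreeLT,
    card_degreeLT, card_degreeLT, card_degreeLT, ← pow_add, ← pow_add, ← pow_add, ← pow_add]
  congr 1
  omega

/-! ### One prime -/

section prime

variable {k : Type} [Field k] [Finite k]

/-- The good tuples modulo `Q`. -/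
abbrev GQ (s : k[X] → k[X]) (Q : k[X]) : Type :=
  {B : Tup (AdjoinRoot Q) // chA B = AdjoinRoot.mk Q (s Q) ∧ chB B = 0 ∧ Two B}

lemma finite_adj {Q : k[X]} (hQ : Irreducible Q) : Finite (AdjoinRoot Q) := by
  haveI : Module.Finite k (AdjoinRoot Q) := (AdjoinRoot.powerBasis hQ.ne_zero).finite
  exact Module.finite_of_finite k

lemma card_adj {Q : k[X]} (hQ : Irreducible Q) : Nat.card (AdjoinRoot Q) = nm Q := by
  haveI : Module.Finite k (AdjoinRoot Q) := (AdjoinRoot.powerBasis hQ.ne_zero).finite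
  rw [Module.natCard_eq_pow_finrank (K := k), (AdjoinRoot.powerBasis hQ.ne_zero).finrank,
    AdjoinRoot.powerBasis_dim, nm]

lemma card_GQ (h : S_CQ) (h6 : (6 : k) ≠ 0) (s : k[X] → k[X]) {Q : k[X]} (hQ : Irreducible Q)
    (hs : ∀ z : k[X], ¬ Q ∣ z ^ 2 + s Q) : 2 * Nat.card (GQ s Q) ≤ nm Q ^ 3 := by
  haveI : Fact (Irreducible Q) := ⟨hQ⟩
  haveI := finite_adj hQ
  have h6' : (6 : AdjoinRoot Q) ≠ 0 := by
    have h1 : (6 : AdjoinRoot Q) = AdjoinRoot.of Q 6 := (map_ofNat (AdjoinRoot.of Q) 6).symm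
    rw [h1]
    exact fun h0 => h6 ((map_eq_zero _).1 h0)
  have h4 : (4 : AdjoinRoot Q) ≠ 0 := by
    intro h0
    apply h6'
    have h2 : (2 : AdjoinRoot Q) ^ 2 = 0 := by linear_combination h0
    have h3 : (2 : AdjoinRoot Q) = 0 := pow_eq_zero_iff (two_ne_zero) |>.1 h2
    linear_combination 3 * h3
  have hsne : AdjoinRoot.mk Q (s Q) ≠ 0 := by
    intro h0
    rw [AdjoinRoot.mk_eq_zero] at h0
    apply hs 0
    simpa using h0
  have h1 := h (AdjoinRoot Q) h6' (AdjoinRoot.mk Q (s Q)) 0 (by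
    rw [zero_pow two_ne_zero, mul_zero, add_zero]
    exact mul_ne_zero h4 (pow_ne_zero 3 hsne))
  rw [card_adj hQ] at h1
  exact h1

end prime

/-! ### The bound with congruences -/

section main

variable {k : Type} [Field k] [Finite k]

lemma two_tmap {Q : k[X]} {B : Tup k[X]} (h : TT Q B) : Two (tmap (AdjoinRoot.mk Q) B) := by
  rcases h with ⟨u, u', h1, h2, h3⟩ | ⟨h1, u, h2⟩
  · left
    refine ⟨AdjoinRoot.mk Q u, AdjoinRoot.mk Q u', ?_, ?_, ?_⟩
    · intro h0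
      apply h1
      rw [← AdjoinRoot.mk_eq_zero, map_sub, h0, sub_self]
    · rw [gq_tmap, AdjoinRoot.mk_eq_zero]; exact h2
    · rw [gq_tmap, AdjoinRoot.mk_eq_zero]; exact h3
  · right
    refine ⟨?_, AdjoinRoot.mk Q u, ?_⟩
    · show AdjoinRoot.mk Q B.x = 0
      rw [AdjoinRoot.mk_eq_zero]; exact h1
    · rw [gq_tmap, AdjoinRoot.mk_eq_zero]; exact h2

/-- polynomials with the same residues modulo the `Q ∈ S` and the same quotient by the product -/
lemma crt_inj {S : Finset k[X]} (hS : ∀ Q ∈ S, Q.Monic ∧ Irreducible Q) {f g : k[X]}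
    (h : ∀ Q ∈ S, AdjoinRoot.mk Q f = AdjoinRoot.mk Q g)
    (hd : f /ₘ (∏ Q ∈ S, Q) = g /ₘ (∏ Q ∈ S, Q)) : f = g := by
  have hM : (∏ Q ∈ S, Q).Monic := monic_prod_of_monic _ _ fun Q hQ => (hS Q hQ).1
  have hdvd : (∏ Q ∈ S, Q) ∣ f - g := by
    apply Finset.prod_dvd_of_coprime
    · intro Q hQ Q' hQ' hne
      have h1 := (hS Q hQ).2
      have h2 := (hS Q' hQ').2
      show IsCoprime Q Q'
      rw [h1.coprime_iff_not_dvd]
      intro hdv
      apply hne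
      exact eq_of_monic_of_associated (hS Q hQ).1 (hS Q' hQ').1
        (h1.associated_of_dvd h2 hdv)
    · intro Q hQ
      rw [← AdjoinRoot.mk_eq_zero, map_sub, h Q hQ, sub_self]
  have hmod : f %ₘ (∏ Q ∈ S, Q) = g %ₘ (∏ Q ∈ S, Q) := by
    rw [← sub_eq_zero, ← sub_modByMonic, (modByMonic_eq_zero_iff_dvd hM).2 hdvd]
  rw [← modByMonic_add_div f (∏ Q ∈ S, Q), ← modByMonic_add_div g (∏ Q ∈ S, Q), hmod, hd]

lemma div_mem {M : k[X]} (hM : M.Monic) {f : k[X]} {d : ℕ} (hf : f.natDegree ≤ d) :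
    f /ₘ M ∈ degreeLT k (d - M.natDegree + 1) := by
  apply mem_degreeLT'
  rw [natDegree_divByMonic f hM]
  omega

theorem box (h : S_CQ) : S_BOX := by
  intro k _ _ h6 S s hS N m hm hdeg
  set M : k[X] := ∏ Q ∈ S, Q with hM
  have hMm : M.Monic := monic_prod_of_monic _ _ fun Q hQ => (hS Q hQ).1
  set D : ℕ := M.natDegree with hD
  set T := (∀ Q : {Q // Q ∈ S}, GQ s Q.1) × degreeLT k (2 * N - 2 * m - D + 1) ×
    degreeLT k (2 * N - m - D + 1) × degreeLT k (2 * N - D + 1) ×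
    degreeLT k (2 * N + m - D + 1) × degreeLT k (2 * N + 2 * m - D + 1) with hT
  have key : ∀ B : {B : Tup k[X] | Xset N m S s B},
      (B.1.x /ₘ M ∈ degreeLT k (2 * N - 2 * m - D + 1)) ∧
      (B.1.y /ₘ M ∈ degreeLT k (2 * N - m - D + 1)) ∧
      (B.1.c /ₘ M ∈ degreeLT k (2 * N - D + 1)) ∧ (B.1.z /ₘ M ∈ degreeLT k (2 * N + m - D + 1)) ∧
      (B.1.w /ₘ M ∈ degreeLT k (2 * N + 2 * m - D + 1)) := by
    intro B
    obtain ⟨h1, h2, h3, h4, h5⟩ := B.2.box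
    exact ⟨div_mem hMm (by omega), div_mem hMm (by omega), div_mem hMm (by omega),
      div_mem hMm (by omega), div_mem hMm (by omega)⟩
  have keyQ : ∀ B : {B : Tup k[X] | Xset N m S s B}, ∀ Q : {Q // Q ∈ S},
      chA (tmap (AdjoinRoot.mk Q.1) B.1) = AdjoinRoot.mk Q.1 (s Q.1) ∧
      chB (tmap (AdjoinRoot.mk Q.1) B.1) = 0 ∧ Two (tmap (AdjoinRoot.mk Q.1) B.1) := by
    rintro ⟨B, hB⟩ ⟨Q, hQ⟩
    refine ⟨?_, ?_, two_tmap (hB.tt Q hQ)⟩
    · rw [chA_tmap, ← sub_eq_zero, ← map_sub, AdjoinRoot.mk_eq_zero]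
      exact hB.ra Q hQ
    · rw [chB_tmap, AdjoinRoot.mk_eq_zero]
      exact hB.rb Q hQ
  let Φ : {B : Tup k[X] | Xset N m S s B} → T := fun B =>
    (fun Q => ⟨tmap (AdjoinRoot.mk Q.1) B.1, keyQ B Q⟩,
      ⟨B.1.x /ₘ M, (key B).1⟩, ⟨B.1.y /ₘ M, (key B).2.1⟩, ⟨B.1.c /ₘ M, (key B).2.2.1⟩,
      ⟨B.1.z /ₘ M, (key B).2.2.2.1⟩, ⟨B.1.w /ₘ M, (key B).2.2.2.2⟩)
  have hΦ : Function.Injective Φ := by
    rintro ⟨B, hB⟩ ⟨B', hB'⟩ h
    have h1 : B.x /ₘ M = B'.x /ₘ M := congrArg (fun t : T => (t.2.1 : k[X])) h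
    have h2 : B.y /ₘ M = B'.y /ₘ M := congrArg (fun t : T => (t.2.2.1 : k[X])) h
    have h3 : B.c /ₘ M = B'.c /ₘ M := congrArg (fun t : T => (t.2.2.2.1 : k[X])) h
    have h4 : B.z /ₘ M = B'.z /ₘ M := congrArg (fun t : T => (t.2.2.2.2.1 : k[X])) h
    have h5 : B.w /ₘ M = B'.w /ₘ M := congrArg (fun t : T => (t.2.2.2.2.2 : k[X])) h
    have hQ : ∀ Q ∈ S, tmap (AdjoinRoot.mk Q) B = tmap (AdjoinRoot.mk Q) B' := by
      intro Q hQ
      exact congrArg (fun t : T => (t.1 ⟨Q, hQ⟩).1) h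
    have hS' : ∀ Q ∈ S, Q.Monic ∧ Irreducible Q := fun Q hQ => ⟨(hS Q hQ).1, (hS Q hQ).2.1⟩
    apply Subtype.ext
    exact Tup.ext (crt_inj hS' (fun Q h => congrArg Tup.x (hQ Q h)) h1)
      (crt_inj hS' (fun Q h => congrArg Tup.y (hQ Q h)) h2)
      (crt_inj hS' (fun Q h => congrArg Tup.c (hQ Q h)) h3)
      (crt_inj hS' (fun Q h => congrArg Tup.z (hQ Q h)) h4)
      (crt_inj hS' (fun Q h => congrArg Tup.w (hQ Q h)) h5)
  haveI : ∀ Q : {Q // Q ∈ S}, Finite (GQ s Q.1) := fun Q => by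
    haveI := finite_adj (hS Q.1 Q.2).2.1
    infer_instance
  have h1 := Nat.card_le_card_of_injective Φ hΦ
  rw [Nat.card_coe_set_eq] at h1
  have hcard : Nat.card T = (∏ Q ∈ S, Nat.card (GQ s Q)) * Nat.card k ^ (10 * N + 5 - 5 * D) := by
    rw [hT, Nat.card_prod, Nat.card_prod, Nat.card_prod, Nat.card_prod, Nat.card_prod,
      card_degreeLT, card_degreeLT, card_degreeLT, card_degreeLT, card_degreeLT, ← pow_add,
      ← pow_add, ← pow_add, ← pow_add, Nat.card_pi, Finset.prod_coe_sort S (fun Q => Nat.card (GQ s Q))]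
    congr 2
    omega
  rw [hcard] at h1
  have h2 : 2 ^ S.card * ∏ Q ∈ S, Nat.card (GQ s Q) ≤ ∏ Q ∈ S, nm Q ^ 3 := by
    rw [← Finset.prod_const, ← Finset.prod_mul_distrib]
    exact Finset.prod_le_prod' fun Q hQ => card_GQ h h6 s (hS Q hQ).2.1 (hS Q hQ).2.2
  have h3 : ∏ Q ∈ S, nm Q = Nat.card k ^ D := by
    unfold nm
    rw [Finset.prod_pow_eq_pow_sum, hD, hM, natDegree_prod_of_monic _ _ fun Q hQ => (hS Q hQ).1]
  calc 2 ^ S.card * (∏ Q ∈ S, nm Q ^ 2) * {B : Tup k[X] | Xset N m S s B}.ncard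
      ≤ 2 ^ S.card * (∏ Q ∈ S, nm Q ^ 2) *
        ((∏ Q ∈ S, Nat.card (GQ s Q)) * Nat.card k ^ (10 * N + 5 - 5 * D)) :=
        Nat.mul_le_mul_left _ h1
    _ = (2 ^ S.card * ∏ Q ∈ S, Nat.card (GQ s Q)) * ((∏ Q ∈ S, nm Q ^ 2) *
        Nat.card k ^ (10 * N + 5 - 5 * D)) := by ring
    _ ≤ (∏ Q ∈ S, nm Q ^ 3) * ((∏ Q ∈ S, nm Q ^ 2) * Nat.card k ^ (10 * N + 5 - 5 * D)) :=
        Nat.mul_le_mul_right _ h2
    _ = Nat.card k ^ (10 * N + 5) := by
        rw [Finset.prod_pow, Finset.prod_pow, h3, ← pow_mul, ← pow_mul, ← pow_add, ← pow_add]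
        congr 1
        omega

end main

end Pool.Agent.N160.PP
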